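import Pool.Agent.H34.GM.Targets
import Pool.Agent.H34.GM.Targets2

set_option autoImplicit false

namespace Pool.Agent.H34.GM

open MeasureTheory

theorem NRD_det (H : T_CHP) (m : ℕ) (O : Subring (Mat m))
    (b : Module.Basis (Fin m × Fin m) ℝ (Mat m)) (hm : 1 ≤ m) (hD : DivOrder m O b)
    (α : Mat m) (hα : α ∈ O) : ∃ k : ℤ, α.det = k := by
  obtain ⟨p, hp⟩ := H m O b hm hD α hα
  refine ⟨(-1) ^ Fintype.card (Fin m) * p.coeff 0, ?_⟩
  rw [Matrix.det_eq_sign_charpoly_coeff, ← hp, Polynomial.coeff_map]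
  push_cast
  rfl

theorem pf_NRD : T_CHP → T_NRD := by
  intro H m O b hm hD
  have hdet : ∀ α ∈ O, ∃ k : ℤ, α.det = k := fun α hα => NRD_det H m O b hm hD α hα
  have : Nonempty (Fin m) := ⟨⟨0, hm⟩⟩
  refine ⟨?_, hdet, ?_, ?_⟩
  · intro α hα
    obtain ⟨p, hp⟩ := H m O b hm hD α hα
    refine ⟨-p.coeff (Fintype.card (Fin m) - 1), ?_⟩
    rw [Matrix.trace_eq_neg_charpoly_coeff, ← hp, Polynomial.coeff_map]
    push_cast
    rfl
  · intro α hα h0
    obtain ⟨k, hk⟩ := hdet α hα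
    have hne := hD.dvn α hα h0
    refine ⟨k.natAbs, ?_, ?_⟩
    · have : k ≠ 0 := by
        rintro rfl
        exact hne (by simpa using hk)
      omega
    · rw [hk, Nat.cast_natAbs]
      push_cast
      rfl
  · intro γ hγ
    obtain ⟨h1, δ, h2, h3, -⟩ := hγ
    obtain ⟨a, ha⟩ := hdet γ h1
    obtain ⟨c, hc⟩ := hdet δ h2
    have h4 : γ.det * δ.det = 1 := by rw [← Matrix.det_mul, h3, Matrix.det_one]
    rw [ha, hc] at h4
    have h5 : a * c = 1 := by exact_mod_cast h4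
    have h6 : IsUnit a := IsUnit.of_mul_eq_one _ h5
    rcases Int.isUnit_iff.mp h6 with h | h <;> rw [ha, h] <;> simp

end Pool.Agent.H34.GM
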