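import Pool.Agent.H53.GM.Targets2

/-!
# Forbidden coloured patterns, row FRC: gadgets
-/

set_option autoImplicit false
set_option linter.unusedVariables false

namespace Pool.Agent.H38.GM

open Pool.Agent.H68.BP Pool.Agent.H58.SF Pool.Agent.H53.GC Pool.Agent.H53.GR Pool.Agent.H53.GM
open Classical

theorem pf_FRC (hTPB : Pool.Agent.H53.GM.T_TPB) (hRLI : Pool.Agent.H53.GM.T_RLI) :
    Pool.Agent.H53.GM.T_FRC := by
  intro τ σ N k F Al hH hF P hP
  obtain ⟨W0, hfin, M0, a0, ha0, hV0, hE⟩ := hRLI τ N F (Fin k) P hP.1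
  obtain ⟨n0, ⟨ε⟩⟩ := Finite.exists_equiv_fin W0
  let M1 : Str τ (Fin n0) := fun l z => M0 l (fun i => ε.symm (z i))
  have h01 : IsHom M0 M1 ε := by
    intro l z hz
    have h1 : (fun i => ε.symm (ε (z i))) = z := by
      funext i
      rw [Equiv.symm_apply_apply]
    change M0 l (fun i => ε.symm (ε (z i)))
    rw [h1]
    exact hz
  have h10 : IsHom M1 M0 ε.symm := fun l z hz => hz
  have hV1 : Val F M1 := fun D hD g hg =>
    hV0 D hD (fun x => ε.symm (g x)) (fun l z hz => h10 l _ (hg l z hz))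
  have hE1 : tp N M1 (fun j => ε (a0 j)) = P := by
    refine le_antisymm ?_ ?_
    · have h2 := (hTPB τ N (Fin n0) W0 (Fin k) (Fin k) M1 M0 (fun j => ε (a0 j))).1 _ h10
      have h3 : (fun j => ε.symm (ε (a0 j))) = a0 := by
        funext j
        rw [Equiv.symm_apply_apply]
      rw [h3, hE] at h2
      exact h2
    · have h2 := (hTPB τ N W0 (Fin n0) (Fin k) (Fin k) M0 M1 a0).1 _ h01
      rw [hE] at h2
      exact h2
  obtain ⟨m, D, e, he, ⟨M', hV', hC', hM'⟩, hall⟩ := hF n0 M1 hV1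
  have hsub : ∀ M : Str τ (Fin m), IsHom M1 M e → P ⊆ tp N M (fun j => e (ε (a0 j))) := by
    intro M hM
    have h2 := (hTPB τ N (Fin n0) (Fin m) (Fin k) (Fin k) M1 M (fun j => ε (a0 j))).1 _ hM
    rw [hE1] at h2
    exact h2
  refine ⟨m, D, fun j => e (ε (a0 j)), ?_, ?_, ?_⟩
  · intro i j hij
    exact ha0 (ε.injective (he hij))
  · refine ⟨M', hV', hC', ?_⟩
    exact hP.2 _ ⟨Fin m, inferInstance, M', _, hV', rfl⟩ (hsub M' hM')
  · intro M hV hC
    exact hsub M (hall M hV hC)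

end Pool.Agent.H38.GM
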